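import Pool.Agent.BddInt.Main
import Pool.Agent.BddInt.CR
import Pool.Agent.BddInt.CRL
import Pool.Agent.BddInt.Fact
import Pool.Agent.BddInt.Tilt
import Pool.Agent.BddInt.RankFin
import Pool.Agent.BddInt.MT
import Pool.Agent.BddInt.NW
import Pool.Agent.BddInt.CleanA
import Pool.Agent.BddInt.CleanB
import Pool.Agent.BddInt.Base
import Pool.Agent.BddInt.GSL
import Pool.Agent.BddInt.Norm
import Pool.Agent.BddInt.VR
import Pool.Agent.BddInt.GM
import Pool.Agent.BddInt.MTL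

namespace Pool.Agent.Results.MP_132c09_co.BoundedDeviation

open Finset Pool.Agent.BddInt

/-- the rank of the shifted intersection matrix -/
lemma rk_inter (n : ℕ) (lam : ℕ) (𝒜 ℬ : Finset (Finset (Fin n))) :
    rk (fun S T : Finset (Fin n) => ((S ∩ T).card : ℤ) - lam) 𝒜 ℬ ≤ n + 1 := by
  classical
  refine (rk_sub_le (fun S T : Finset (Fin n) => ((S ∩ T).card : ℤ)) lam 𝒜 ℬ).trans ?_
  gcongr
  unfold rk
  have h : (Matrix.of fun (x : 𝒜) (y : ℬ) => (((x.1 ∩ y.1).card : ℤ) : ℝ)) =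
      (Matrix.of fun (x : 𝒜) (i : Fin n) => if i ∈ x.1 then (1 : ℝ) else 0) *
        (Matrix.of fun (i : Fin n) (y : ℬ) => if i ∈ y.1 then (1 : ℝ) else 0) := by
    ext x y
    simp only [Matrix.of_apply, Matrix.mul_apply, ← ite_and, mul_ite, mul_one, mul_zero]
    rw [Finset.sum_boole]
    congr 1
    have : (Finset.univ.filter fun i : Fin n => i ∈ y.1 ∧ i ∈ x.1) = x.1 ∩ y.1 := by
      ext i; simp [and_comm]
    rw [this]
  rw [h]
  refine (Matrix.rank_mul_le_left _ _).trans ?_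
  refine (Matrix.rank_le_card_width _).trans ?_
  simp

theorem result :
    ∃ C : ℝ, 0 < C ∧
      ∀ (K n lam : ℕ) (ε : ℝ) (𝒜 ℬ : Finset (Finset (Fin n))),
        1 ≤ n → 0 < ε → ε ≤ 1 / 2 →
        (∀ S ∈ 𝒜, ∀ T ∈ ℬ, |((S ∩ T).card : ℤ) - lam| ≤ K) →
        (1 - ε) * ((𝒜.card : ℝ) * ℬ.card) ≤
          (((𝒜 ×ˢ ℬ).filter fun p => (p.1 ∩ p.2).card = lam).card : ℝ) →
        ∃ 𝒜' ⊆ 𝒜, ∃ ℬ' ⊆ ℬ,
          (∀ S ∈ 𝒜', ∀ T ∈ ℬ', (S ∩ T).card = lam) ∧
          (2 : ℝ) ^ (-(C * min (K * √n) (K ^ 2 * √(n * ε) * Real.logb 2 (4 / ε)))) *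
            ((𝒜.card : ℝ) * ℬ.card) ≤ (𝒜'.card : ℝ) * ℬ'.card := by
  have hNorm := Norm_proof Fact_proof
  have hConc := Conc_proof Tilt_proof
  have hMTL := MTL_proof hNorm (VR_proof hNorm hConc) (GM_proof hNorm hConc)
  have hMT := MT_proof (GSL_proof Fact_proof Tilt_proof) RankFin_proof
  have hCR := CR_proof Base_proof CleanA_proof hMT NW_proof
  obtain ⟨C1, hC1, hCRL⟩ := CRL_proof Base_proof CleanA_proof hMTL NW_proof
  obtain ⟨C, hC, hmain⟩ := Main_proof Base_proof CleanB_proof hMT NW_proof RankFin_proof hCR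
  refine ⟨2 * C + 44 * C1, by positivity, ?_⟩
  intro K n lam ε 𝒜 ℬ hn hε hε2 hbd hcnt
  rcases Nat.eq_zero_or_pos K with hK | hK
  · subst hK
    refine ⟨𝒜, subset_rfl, ℬ, subset_rfl, ?_, ?_⟩
    · intro S hS T hT
      have := hbd S hS T hT
      have h2 : ((S ∩ T).card : ℤ) - lam = 0 :=
        abs_eq_zero.mp (le_antisymm (by simpa using this) (abs_nonneg _))
      omega
    · simp
  rcases 𝒜.eq_empty_or_nonempty with h𝒜 | h𝒜
  · refine ⟨𝒜, subset_rfl, ℬ, subset_rfl, ?_, ?_⟩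
    · intro S hS; simp [h𝒜] at hS
    · simp [h𝒜]
  rcases ℬ.eq_empty_or_nonempty with hℬ | hℬ
  · refine ⟨𝒜, subset_rfl, ℬ, subset_rfl, ?_, ?_⟩
    · intro S _ T hT; simp [hℬ] at hT
    · simp [hℬ]
  set N : Finset (Fin n) → Finset (Fin n) → ℤ := fun S T => ((S ∩ T).card : ℤ) - lam with hN
  have hcz : ((𝒜 ×ˢ ℬ).filter fun p => (p.1 ∩ p.2).card = lam).card = cnt N 0 𝒜 ℬ := by
    unfold cnt
    congr 1
    refine Finset.filter_congr fun p _ => ?_
    simp only [hN]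
    omega
  rw [hcz] at hcnt
  have hpos : 0 ≤ (𝒜.card : ℝ) * ℬ.card := by positivity
  have hbad : (bad N 0 𝒜 ℬ : ℝ) ≤ ε * (𝒜.card * ℬ.card) := by
    have h1 := cnt_add_bad_real N 0 𝒜 ℬ
    linarith
  have hL : 0 ≤ Real.log (4 / ε) := Real.log_nonneg (by rw [le_div_iff₀ hε]; linarith)
  have hl2 : 0 < Real.log 2 := Real.log_pos (by norm_num)
  have hn1 : (1 : ℝ) ≤ n := by exact_mod_cast hn
  -- it suffices to find a zero rectangle whose cost is at most the claimed one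
  have hfin : ∀ c : ℝ, HasRect N 0 𝒜 ℬ c →
      c ≤ (2 * C + 44 * C1) * min (K * √n) (K ^ 2 * √(n * ε) * Real.logb 2 (4 / ε)) * Real.log 2 →
      ∃ 𝒜' ⊆ 𝒜, ∃ ℬ' ⊆ ℬ,
          (∀ S ∈ 𝒜', ∀ T ∈ ℬ', (S ∩ T).card = lam) ∧
          (2 : ℝ) ^ (-((2 * C + 44 * C1) *
            min (K * √n) (K ^ 2 * √(n * ε) * Real.logb 2 (4 / ε)))) *
            ((𝒜.card : ℝ) * ℬ.card) ≤ (𝒜'.card : ℝ) * ℬ'.card := by
    intro c ⟨𝒜', h𝒜', ℬ', hℬ', hz, hsz⟩ hc
    refine ⟨𝒜', h𝒜', ℬ', hℬ', ?_, le_trans ?_ hsz⟩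
    · intro S hS T hT
      have := hz S hS T hT
      simp only [hN] at this
      omega
    · rw [Real.rpow_def_of_pos (by norm_num)]
      gcongr ?_ * _
      apply Real.exp_le_exp.mpr
      linarith
  rcases le_total (K * √(n : ℝ)) (K ^ 2 * √(n * ε) * Real.logb 2 (4 / ε)) with hmin | hmin
  · -- linear bound
    have hrect := hCRL _ _ N 𝒜 ℬ K (n + 1) (1 / 2) hK h𝒜 hℬ hbd (rk_inter n lam 𝒜 ℬ)
      (by norm_num) (by norm_num) (by nlinarith)
    refine hfin _ hrect ?_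
    rw [min_eq_left hmin, show (1 : ℝ) / (1 / 2) = 2 by norm_num]
    have hs : √((n + 1 : ℕ) : ℝ) ≤ 2 * √n := by
      rw [show (2 : ℝ) * √n = √(2 ^ 2 * n) by
        rw [Real.sqrt_mul (x := 2 ^ 2) (by positivity), Real.sqrt_sq (by norm_num)]]
      apply Real.sqrt_le_sqrt
      push_cast
      nlinarith
    have hl2' : 0.69 ≤ Real.log 2 := by linarith [Real.log_two_gt_d9]
    have hl2'' : Real.log 2 ≤ 1 := by linarith [Real.log_two_lt_d9]
    calc C1 * K * (Real.log 2 + 10) * √((n + 1 : ℕ) : ℝ)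
        ≤ C1 * K * 11 * (2 * √n) := by
          gcongr
          linarith
      _ = 22 * C1 * (K * √n) := by ring
      _ ≤ (2 * C + 44 * C1) * 0.69 * (K * √n) := by
          have h22 : 22 * C1 ≤ (2 * C + 44 * C1) * 0.69 := by linarith
          exact mul_le_mul_of_nonneg_right h22 (by positivity)
      _ ≤ (2 * C + 44 * C1) * Real.log 2 * (K * √n) := by gcongr
      _ = _ := by ring
  · -- bound for small eps
    have hrect := hmain _ _ N 𝒜 ℬ K (n + 1) ε hK h𝒜 hℬ hbd (by omega)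
      (rk_inter n lam 𝒜 ℬ) hε hε2 hbad
    refine hfin _ hrect ?_
    rw [min_eq_right hmin]
    have hs : √(ε * ((n + 1 : ℕ) : ℝ)) ≤ 2 * √(n * ε) := by
      rw [show (2 : ℝ) * √(n * ε) = √(2 ^ 2 * (n * ε)) by
        rw [Real.sqrt_mul (x := 2 ^ 2) (by positivity), Real.sqrt_sq (by norm_num)]]
      apply Real.sqrt_le_sqrt
      push_cast
      nlinarith
    have hlog : Real.logb 2 (4 / ε) * Real.log 2 = Real.log (4 / ε) := by
      rw [Real.logb]
      field_simp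
    calc C * K ^ 2 * √(ε * ((n + 1 : ℕ) : ℝ)) * Real.log (4 / ε)
        ≤ C * K ^ 2 * (2 * √(n * ε)) * Real.log (4 / ε) := by gcongr
      _ = 2 * C * (K ^ 2 * √(n * ε)) * Real.log (4 / ε) := by ring
      _ ≤ (2 * C + 44 * C1) * (K ^ 2 * √(n * ε)) * Real.log (4 / ε) := by
          gcongr
          linarith
      _ = _ := by rw [← hlog]; ring

/-- the hypotheses are satisfied by a nontrivial example: not all pairs have intersection of
size exactly one -/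
theorem sanity :
    ∃ 𝒜 : Finset (Finset (Fin 2)),
      (∀ S ∈ 𝒜, ∀ T ∈ 𝒜, |((S ∩ T).card : ℤ) - (1 : ℕ)| ≤ (1 : ℕ)) ∧
      (1 - (1 / 4 : ℝ)) * ((𝒜.card : ℝ) * 𝒜.card) ≤
        (((𝒜 ×ˢ 𝒜).filter fun p => (p.1 ∩ p.2).card = 1).card : ℝ) ∧
      ¬ (∀ S ∈ 𝒜, ∀ T ∈ 𝒜, (S ∩ T).card = 1) := by
  refine ⟨{{0}, {0, 1}}, by decide, ?_, by decide⟩
  have h1 : (({{0}, {0, 1}} : Finset (Finset (Fin 2))) ×ˢ
      ({{0}, {0, 1}} : Finset (Finset (Fin 2)))).filter (fun p => (p.1 ∩ p.2).card = 1) =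
      {({0}, {0}), ({0}, {0, 1}), ({0, 1}, {0})} := by decide
  have h2 : ({{0}, {0, 1}} : Finset (Finset (Fin 2))).card = 2 := by decide
  rw [h1, h2]
  have h3 : ({({0}, {0}), ({0}, {0, 1}), ({0, 1}, {0})} :
      Finset (Finset (Fin 2) × Finset (Fin 2))).card = 3 := by decide
  rw [h3]
  norm_num

end Pool.Agent.Results.MP_132c09_co.BoundedDeviation
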