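import Pool.Agent.LIS.SmallE

namespace Pool.Agent.Results.MP_132c09_co.SmallEps

open Finset Pool.Agent.LIS

theorem result :
    ∃ C : ℝ, 0 < C ∧
      ∀ (n lam : ℕ) (ε : ℝ) (𝒜 ℬ : Finset (Finset (Fin n))),
        1 ≤ n → 1 ≤ lam → 0 < ε → ε ≤ 1 / 2 →
        (1 - ε) * ((𝒜.card : ℝ) * ℬ.card) ≤
          (((𝒜 ×ˢ ℬ).filter fun p => (p.1 ∩ p.2).card = lam).card : ℝ) →
        ∃ 𝒜' ⊆ 𝒜, ∃ ℬ' ⊆ ℬ, ∃ I : Finset (Fin n),
          (∀ S ∈ 𝒜', ∀ T ∈ ℬ', S ∩ T = I ∧ (S ∩ T).card = lam) ∧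
          (2 : ℝ) ^ (-(C * (lam * Real.logb 2 (n + 1) +
              lam * √(lam * n) * ε ^ ((1 : ℝ) / (lam + 1))))) *
            ((𝒜.card : ℝ) * ℬ.card) ≤ (𝒜'.card : ℝ) * ℬ'.card := by
  have hlog2 : 0 < Real.log 2 := Real.log_pos (by norm_num)
  refine ⟨20200000 / Real.log 2, by positivity, ?_⟩
  intro n lam ε 𝒜 ℬ hn hl hε hε2 hcnt
  rcases 𝒜.eq_empty_or_nonempty with h𝒜 | h𝒜
  · refine ⟨𝒜, subset_rfl, ℬ, subset_rfl, ∅, ?_, ?_⟩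
    · intro S hS; simp [h𝒜] at hS
    · simp [h𝒜]
  rcases ℬ.eq_empty_or_nonempty with hℬ | hℬ
  · refine ⟨𝒜, subset_rfl, ℬ, subset_rfl, ∅, ?_, ?_⟩
    · intro S _ T hT; simp [hℬ] at hT
    · simp [hℬ]
  have hcnt' : (1 - ε) * ((𝒜.card : ℝ) * ℬ.card) ≤
      Zc (fun S T : Finset (Fin n) => (S ∩ T).card = lam) 𝒜 ℬ := by
    rw [Zc_card]
    refine hcnt.trans (le_of_eq ?_)
    congr 2
    ext p
    simp only [Finset.mem_filter]
  obtain ⟨A', hA', B', hB', I, hI, hint, hmain⟩ :=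
    smallE lam hl hn 𝒜 ℬ h𝒜 hℬ ε hε hε2 hcnt'
  refine ⟨A', hA', B', hB', I, ?_, le_trans ?_ hmain⟩
  · intro S hS T hT
    have h1 := hint S hS T hT
    exact ⟨h1, by rw [h1, hI]⟩
  apply mul_le_mul_of_nonneg_right _ (by positivity)
  rw [Real.rpow_def_of_pos (by norm_num)]
  apply Real.exp_le_exp.mpr
  have hn' : (1 : ℝ) ≤ n := by exact_mod_cast hn
  have hl' : (1 : ℝ) ≤ lam := by exact_mod_cast hl
  have hL0 : 0 ≤ Real.log (n + 1) := Real.log_nonneg (by linarith)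
  set X : ℝ := lam * √(lam * n) * ε ^ ((1 : ℝ) / (lam + 1)) with hX
  have h4 : Real.log 2 * (-(20200000 / Real.log 2 * (lam * Real.logb 2 (n + 1) + X))) =
      -(20200000 * (lam * Real.logb 2 (n + 1) + X)) := by
    field_simp
  rw [h4]
  have h3 : Real.log (n + 1) ≤ Real.logb 2 (n + 1) := by
    unfold Real.logb
    rw [le_div_iff₀ hlog2]
    have : Real.log 2 ≤ 1 := by linarith [Real.log_two_lt_d9]
    nlinarith
  have h5 : (lam : ℝ) * Real.log (n + 1) ≤ lam * Real.logb 2 (n + 1) :=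
    mul_le_mul_of_nonneg_left h3 (by linarith)
  have h6 : 0 ≤ (lam : ℝ) * Real.log (n + 1) := mul_nonneg (by linarith) hL0
  linarith

end Pool.Agent.Results.MP_132c09_co.SmallEps
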