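import Pool.Agent.LIS.Fin

namespace Pool.Agent.Results.MP_132c09_co.SmallPart

open Finset Pool.Agent.LIS

theorem result :
    ∃ C : ℝ, 0 < C ∧
      ∀ (n lam μ : ℕ) (z : ℝ) (𝒜 ℬ : Finset (Finset (Fin n))),
        1 ≤ n → 1 ≤ μ → 0 < z → z ≤ 1 →
        z * ((𝒜.card : ℝ) * ℬ.card) ≤
          (((𝒜 ×ˢ ℬ).filter fun p => (p.1 ∩ p.2).card = lam ∧
            ((p.1 ∩ p.2).card ≤ μ ∨ (p.1 \ p.2).card ≤ μ ∨ (p.2 \ p.1).card ≤ μ ∨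
              ((p.1 ∪ p.2)ᶜ).card ≤ μ)).card : ℝ) →
        ∃ 𝒜' ⊆ 𝒜, ∃ ℬ' ⊆ ℬ,
          (∀ S ∈ 𝒜', ∀ T ∈ ℬ', (S ∩ T).card = lam) ∧
          ((∃ I : Finset (Fin n), ∀ S ∈ 𝒜', ∀ T ∈ ℬ', S ∩ T = I) ∨
            (∃ I : Finset (Fin n), ∀ S ∈ 𝒜', ∀ T ∈ ℬ', S \ T = I) ∨
            (∃ I : Finset (Fin n), ∀ S ∈ 𝒜', ∀ T ∈ ℬ', T \ S = I) ∨
            (∃ I : Finset (Fin n), ∀ S ∈ 𝒜', ∀ T ∈ ℬ', (S ∪ T)ᶜ = I)) ∧
          (2 : ℝ) ^ (-(C * √(n * (μ + Real.logb 2 (1 / z))))) *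
            ((𝒜.card : ℝ) * ℬ.card) ≤ (𝒜'.card : ℝ) * ℬ'.card := by
  have hlog2 : 0 < Real.log 2 := Real.log_pos (by norm_num)
  refine ⟨54 / Real.log 2, by positivity, ?_⟩
  intro n lam μ z 𝒜 ℬ hn hμ hz hz1 hcnt
  rcases 𝒜.eq_empty_or_nonempty with h𝒜 | h𝒜
  · refine ⟨𝒜, subset_rfl, ℬ, subset_rfl, ?_, Or.inl ⟨∅, ?_⟩, ?_⟩
    · intro S hS; simp [h𝒜] at hS
    · intro S hS; simp [h𝒜] at hS
    · simp [h𝒜]
  rcases ℬ.eq_empty_or_nonempty with hℬ | hℬ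
  · refine ⟨𝒜, subset_rfl, ℬ, subset_rfl, ?_, Or.inl ⟨∅, ?_⟩, ?_⟩
    · intro S _ T hT; simp [hℬ] at hT
    · intro S _ T hT; simp [hℬ] at hT
    · simp [hℬ]
  have hcnt' : z * ((𝒜.card : ℝ) * ℬ.card) ≤
      Zc (fun S T : Finset (Fin n) => (S ∩ T).card = lam ∧ ((S ∩ T).card ≤ μ ∨
        (S \ T).card ≤ μ ∨ (T \ S).card ≤ μ ∨ ((S ∪ T)ᶜ).card ≤ μ)) 𝒜 ℬ := by
    rw [Zc_card]
    refine hcnt.trans (le_of_eq ?_)
    congr 2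
    ext p
    simp only [Finset.mem_filter]
  obtain ⟨A', hA', B', hB', hAB, hrig, hmain⟩ :=
    main_nat n lam μ hn hμ z hz hz1 𝒜 ℬ h𝒜 hℬ hcnt'
  refine ⟨A', hA', B', hB', hAB, hrig, le_trans ?_ hmain⟩
  apply mul_le_mul_of_nonneg_right _ (by positivity)
  rw [Real.rpow_def_of_pos (by norm_num)]
  apply Real.exp_le_exp.mpr
  have h1 : √((n : ℝ) * (μ + Real.log (1 / z))) ≤ √(n * (μ + Real.logb 2 (1 / z))) := by
    apply Real.sqrt_le_sqrt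
    apply mul_le_mul_of_nonneg_left _ (Nat.cast_nonneg _)
    have h2 : 0 ≤ Real.log (1 / z) := by
      apply Real.log_nonneg
      rw [le_div_iff₀ hz]
      linarith
    have h3 : Real.log (1 / z) ≤ Real.logb 2 (1 / z) := by
      unfold Real.logb
      rw [le_div_iff₀ hlog2]
      have : Real.log 2 ≤ 1 := by linarith [Real.log_two_lt_d9]
      nlinarith
    linarith
  have h4 : Real.log 2 * (-(54 / Real.log 2 * √(n * (μ + Real.logb 2 (1 / z))))) =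
      -(54 * √(n * (μ + Real.logb 2 (1 / z)))) := by
    field_simp
  rw [h4]
  linarith

end Pool.Agent.Results.MP_132c09_co.SmallPart
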