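import Pool.Agent.LSB.Fin
import Pool.Agent.LSB.WIN
import Pool.Agent.LSB.STG
import Pool.Agent.LSB.CHO
import Pool.Agent.LSB.LST
import Pool.Agent.LSB.CLN
import Pool.Agent.LSB.FAC
import Pool.Agent.LSB.ITR
import Pool.Agent.LSB.TLD
import Pool.Agent.LSB.RKF
import Pool.Agent.LSB.TRI
import Pool.Agent.LSB.SQE

namespace Pool.Agent.Results.MP_132c09_co.SqrtEps

open Finset Pool.Agent.LIS Pool.Agent.LSB

theorem result :
    ∃ C : ℝ, 0 < C ∧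
      ∀ (n lam : ℕ) (ε : ℝ) (𝒜 ℬ : Finset (Finset (Fin n))),
        1 ≤ n → 1 ≤ lam → 0 < ε → ε ≤ 1 / 2 →
        (1 - ε) * ((𝒜.card : ℝ) * ℬ.card) ≤
          (((𝒜 ×ˢ ℬ).filter fun p => (p.1 ∩ p.2).card = lam).card : ℝ) →
        ∃ 𝒜' ⊆ 𝒜, ∃ ℬ' ⊆ ℬ,
          (∀ S ∈ 𝒜', ∀ T ∈ ℬ', (S ∩ T).card = lam) ∧
          (2 : ℝ) ^ (-(C * (√(n * ε) *
              (Real.logb 2 (4 / ε) + lam * Real.logb 2 (lam + 1))))) *
            ((𝒜.card : ℝ) * ℬ.card) ≤ (𝒜'.card : ℝ) * ℬ'.card := by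
  have hlog2 : 0 < Real.log 2 := Real.log_pos (by norm_num)
  refine ⟨200000, by positivity, ?_⟩
  intro n lam ε 𝒜 ℬ hn hl hε hε2 hcnt
  rcases 𝒜.eq_empty_or_nonempty with h𝒜 | h𝒜
  · refine ⟨𝒜, subset_rfl, ℬ, subset_rfl, ?_, ?_⟩
    · intro S hS; simp [h𝒜] at hS
    · simp [h𝒜]
  rcases ℬ.eq_empty_or_nonempty with hℬ | hℬ
  · refine ⟨𝒜, subset_rfl, ℬ, subset_rfl, ?_, ?_⟩
    · intro S _ T hT; simp [hℬ] at hT
    · simp [hℬ]
  have hcnt' : (1 - ε) * ((𝒜.card : ℝ) * ℬ.card) ≤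
      Zc (fun S T : Finset (Fin n) => (S ∩ T).card = lam) 𝒜 ℬ := by
    rw [Zc_card]
    refine hcnt.trans (le_of_eq ?_)
    congr 2
    ext p
    simp only [Finset.mem_filter]
  have hTLD := tld_proof
  have hFAC := fac_proof
  have hCLN := cln_proof
  have hSQE := sqe_proof
  obtain ⟨A', hA', B', hB', hint, hmain⟩ :=
    theoremB (itr_proof (stg_proof hTLD hFAC hCLN hSQE)) (lst_proof hTLD hFAC hSQE) cho_proof
      win_proof tri_proof rkf_proof lam hl hn 𝒜 ℬ h𝒜 hℬ ε hε hε2 hcnt'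
  refine ⟨A', hA', B', hB', hint, le_trans (le_of_eq ?_) hmain⟩
  congr 1
  rw [Real.rpow_def_of_pos (by norm_num)]
  congr 1
  unfold Real.logb
  field_simp

end Pool.Agent.Results.MP_132c09_co.SqrtEps
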